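import Pool.Agent.N625.PT.K
import Pool.Agent.N625.PT.H
import Pool.Agent.N469.TL.Sets

/-!
# Primes in arbitrary sets of reduced classes, for all the multiples of random moduli whose blocks of digits can be exchanged

Nothing is used besides Mathlib in the statement: `∑ v ∈ range (b ^ k), (if P v then 0 else p v)` is the probability that
the random integer `v < b ^ k` with the distribution `p` does not have the property `P`.
-/

set_option autoImplicit false

namespace Pool.Agent.Results.MP_e1dc24_nt.ExchangeableModuli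

open Finset

/-- `ψ(x; m, a) = ∑_{n ≤ x, n ≡ a mod m} Λ(n)` for `0 ≤ a < m` -/
noncomputable def psiAP (x : ℝ) (m a : ℕ) : ℝ :=
  ∑ n ∈ (Icc 1 ⌊x⌋₊).filter (fun n => n % m = a), ArithmeticFunction.vonMangoldt n

/-- For EVERY set `S` of reduced classes modulo `m` (represented by integers `0 ≤ a < m`):

(a) if `S` is not empty and `#S ≥ φ(m) / log ^ T m`, then there is a prime `p ≤ (1 + ε) (φ(m) / #S) φ(m) log m` with
`p mod m ∈ S`;

(b) for all real `x` with `m ≤ x ≤ m log ^ T m`, the sum of `Λ(n)` over the `n ≤ x` with `n mod m ∈ S` is equal to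
`#S x / φ(m)` with an error of at most `√((1 + ε) #S x log m)`. -/
def Holds (ε : ℝ) (T m : ℕ) : Prop :=
  ∀ S : Finset ℕ, S ⊆ (range m).filter (fun a => Nat.Coprime a m) →
    (1 ≤ S.card → (Nat.totient m : ℝ) / Real.log m ^ T ≤ S.card →
      ∃ p : ℕ, p.Prime ∧ p % m ∈ S ∧ (p : ℝ) * S.card ≤ (1 + ε) * (Nat.totient m : ℝ) ^ 2 * Real.log m) ∧
    ∀ x : ℝ, (m : ℝ) ≤ x → x ≤ m * Real.log m ^ T →
      (∑ a ∈ S, psiAP x m a - S.card * (x / Nat.totient m)) ^ 2 ≤ (1 + ε) * (S.card * (x * Real.log m))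

/-- The probability, for the distribution `μ` on the words of `k` digits (the integers `v < b ^ k`), that the word begins with
the `i` digits of `u < b ^ i`. -/
noncomputable def begins (b k : ℕ) (μ : ℕ → ℝ) (i u : ℕ) : ℝ := ∑ w ∈ range (b ^ (k - i)), μ (u * b ^ (k - i) + w)

/-- `p` is a probability on the words of `k` digits in base `b`, read as integers `v < b ^ k`. There is another probability
`μ` with `p ≤ k ^ T μ` such that after every beginning `u` two different blocks `a`, `a'` of `L` digits can be exchanged: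
`p (u a w) = r p (u a' w)` for all endings `w`, with a factor `r` between `η` and `1 / η` which does not depend on `w`; and
given the beginning `u`, each of the two blocks comes next with a probability of at least `η` in the distribution `μ`.
(For `T = 0` one has `μ = p`. For the uniform distribution on a set of words `r` is `1`.) -/
structure Exchangeable (b L : ℕ) (η : ℝ) (T k : ℕ) (p : ℕ → ℝ) : Prop where
  nonneg : ∀ v, 0 ≤ p v
  sum : ∑ v ∈ range (b ^ k), p v = 1
  dominated : ∃ μ : ℕ → ℝ, (∀ v, 0 ≤ μ v) ∧ ∑ v ∈ range (b ^ k), μ v = 1 ∧ (∀ v < b ^ k, p v ≤ (k : ℝ) ^ T * μ v) ∧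
    ∀ i u : ℕ, i + L ≤ k → u < b ^ i → ∃ (a a' : ℕ) (r : ℝ), a < a' ∧ a' < b ^ L ∧ η ≤ r ∧ η * r ≤ 1 ∧
      (∀ w < b ^ (k - (i + L)), p ((b ^ L * u + a) * b ^ (k - (i + L)) + w) = r * p ((b ^ L * u + a') * b ^ (k - (i + L)) + w)) ∧
      η * begins b k μ i u ≤ begins b k μ (i + L) (b ^ L * u + a) ∧
      η * begins b k μ i u ≤ begins b k μ (i + L) (b ^ L * u + a')

lemma begins_sum (b k : ℕ) (μ : ℕ → ℝ) (i u : ℕ) (hi : i < k) :
    ∑ a ∈ range b, begins b k μ (i + 1) (b * u + a) = begins b k μ i u := by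
  unfold begins
  obtain ⟨n, hn⟩ : ∃ n, k - i = n + 1 := ⟨k - i - 1, by omega⟩
  have h1 : k - (i + 1) = n := by omega
  rw [h1, hn, pow_succ, mul_comm (b ^ n) b, Pool.Agent.N625.PT.sum_blocks b (b ^ n)]
  apply sum_congr rfl
  intro a _
  apply sum_congr rfl
  intro w _
  congr 1
  ring

lemma flex_of {b L T k : ℕ} {η : ℝ} {p : ℕ → ℝ} (hp : Exchangeable b L η T k p) : Pool.Agent.N625.PT.Flex b L η T k p := by
  obtain ⟨h0, h1, μ, m0, m1, m2, m3⟩ := hp
  have hT : (0 : ℝ) ≤ (k : ℝ) ^ T := by positivity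
  have hb0 : ∀ i u, 0 ≤ begins b k μ i u := fun i u => sum_nonneg fun w _ => m0 _
  refine ⟨h0, h1, fun i u => (k : ℝ) ^ T * begins b k μ i u, fun i u => mul_nonneg hT (hb0 i u), ?_, ?_, ?_, ?_⟩
  · intro v hv
    refine (m2 v hv).trans (le_of_eq ?_)
    unfold begins
    simp
  · intro i hi u _
    simp only
    rw [← mul_sum, begins_sum b k μ i u hi]
  · simp only
    have : begins b k μ 0 0 = 1 := by
      unfold begins
      simpa using m1
    rw [this, mul_one]
  · intro i u hi hu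
    obtain ⟨a, a', r, q1, q2, q3, q4, q5, q6, q7⟩ := m3 i u hi hu
    refine ⟨a, a', r, q1, q2, q3, q4, q5, ?_, ?_⟩
    · simp only
      calc η * ((k : ℝ) ^ T * begins b k μ i u) = (k : ℝ) ^ T * (η * begins b k μ i u) := by ring
        _ ≤ _ := mul_le_mul_of_nonneg_left q6 hT
    · simp only
      calc η * ((k : ℝ) ^ T * begins b k μ i u) = (k : ℝ) ^ T * (η * begins b k μ i u) := by ring
        _ ≤ _ := mul_le_mul_of_nonneg_left q7 hT

lemma holds_of (ε : ℝ) (hε : 0 < ε) (hε1 : ε ≤ 1) (T : ℕ) : ∃ Q₀ : ℕ, ∀ Q : ℕ, Q₀ ≤ Q → (∀ x : ℝ, (Q : ℝ) ≤ x →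
    x ≤ Q * Real.log Q ^ (T + T + 2) →
    |Pool.Agent.TH894.PV.G x Q - x * Real.log Q| ≤ ε / 4 * (x * Real.log Q)) → Holds ε T Q :=
  Pool.Agent.N469.TL.sets_of_var T T ε hε hε1

open Classical in
/-- **Primes in all large sets of classes, for all the multiples of the moduli with exchangeable blocks.** Let `b ≥ 2`,
`L ≥ 1`, `0 < η ≤ 1`, `T₀`, `κ ≠ 0`, `B`, `J`, `W`, `T`, `U` and `0 < ε ≤ 1` be fixed and let `k` be large. Let `p` be any
probability on the words of `k` digits in which blocks of `L` digits can be exchanged (`Exchangeable b L η T₀ k p`), and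
let `c` be any integer with `|c| ≤ B b ^ k`. If `v` is random with the distribution `p` then with a probability of at least
`1 - 1 / k ^ U` ALL the moduli `m = h q`, where `1 ≤ h ≤ k ^ J` and `q ≥ 1` is any integer at a distance of at most `k ^ W`
from `c + κ v`, have the following property: every nonempty set `S` of at least `φ(m) / log ^ T m` reduced classes
modulo `m` contains the class of a prime `p ≤ (1 + ε) (φ(m) / #S) φ(m) log m` (for example, every coset of every subgroup of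
index `r ≤ log ^ T m` contains the class of a prime `p ≤ (1 + ε) r φ(m) log m`), and the sum of `Λ(n)` over the `n ≤ x` with
`n mod m ∈ S` is `#S x / φ(m)` up to `√((1 + ε) #S x log m)` for every set `S` of reduced classes and `m ≤ x ≤ m log ^ T m`. -/
theorem result (b L : ℕ) (hb : 2 ≤ b) (hL : 1 ≤ L) (η : ℝ) (hη0 : 0 < η) (hη1 : η ≤ 1) (T₀ : ℕ) (κ : ℤ) (hκ : κ ≠ 0)
    (B J W T U : ℕ) (ε : ℝ) (hε : 0 < ε) (hε1 : ε ≤ 1) :
    ∃ k₀ : ℕ, ∀ k : ℕ, k₀ ≤ k → ∀ p : ℕ → ℝ, Exchangeable b L η T₀ k p → ∀ c : ℤ, |c| ≤ B * (b : ℤ) ^ k →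
      ∑ v ∈ range (b ^ k), (if ∀ q : ℕ, 1 ≤ q → |(q : ℤ) - (c + κ * v)| ≤ (k : ℤ) ^ W →
        ∀ h : ℕ, 1 ≤ h → h ≤ k ^ J → Holds ε T (h * q) then 0 else p v) ≤ 1 / (k : ℝ) ^ U := by
  obtain ⟨Q₀, h0⟩ := holds_of ε hε hε1 T
  obtain ⟨k₀, hmain⟩ := Pool.Agent.N625.PT.t_var
    (Pool.Agent.N625.PT.flex_tcls b L hb hL η hη0 hη1 T₀ κ hκ) B J W (T + T + 2) U (ε / 4) (by positivity) (by linarith)
    (Holds ε T) Q₀ h0
  exact ⟨k₀, fun k hk p hp c hc => hmain k hk p (flex_of hp) c hc⟩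

end Pool.Agent.Results.MP_e1dc24_nt.ExchangeableModuli
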