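import Pool.Agent.N826.IT.V
import Pool.Agent.N469.TL.Sets

/-!
# Primes in all large sets of reduced classes, for all the multiples of the moduli on almost all orbits of Euler's function

Let `φ_k` be the `k`-th iterate of Euler's function and `f` a positive multiplicative function of at most polynomial growth
with `f p = p + c` for all large primes `p` (the identity, Euler's function, the sum of the divisors). There is a function
`κ(m)` tending to infinity such that for almost all `m`, with `K = κ(m)`, and for ALL the multiples `q = t n`,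
`t ≤ (log n)^K`, of ALL the integers `n = α f(φ_k m) + h` with `k, α, |h| ≤ K`, `h ≠ 0`: every set of at least
`φ(q) / (log q)^K` reduced classes modulo `q` contains a prime which is at most
`(1 + 1 / (K + 1)) φ(q) log q` times the inverse of the density of the set.

Proof. The iterates of `φ` are not multiplicative, their values are taken with large multiplicities, and they form a very
thin set. The classification of the integers `m` by the smooth parts of the shifted primes which occur along the orbit is in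
`N826/IT` (`densk`); in a class the integer `α f(φ_k m) + h` lies in the class of `h` modulo a small modulus `d`, its multiples
by `t` in the class of `t h` modulo `t d`, and the theorem of the starting files on the variance of the primes in the
progressions with almost all differences in the residue classes of every modulus (`MP_5d318d_nt.ModuliInClasses`) is applied
for every `t`; the passage from the variance to the sets of classes is `Pool.Agent.N469.TL.sets_of_var`.
-/

set_option autoImplicit false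

namespace Pool.Agent.Results.MP_e1dc24_nt.IteratedTotientModuli

open Finset Filter Topology
open Pool.Agent.N826.IT.Orb (Shifted AlmostAll)

/-- `ψ(x; m, a) = ∑_{n ≤ x, n ≡ a mod m} Λ(n)` for `0 ≤ a < m` -/
noncomputable def psiAP (x : ℝ) (m a : ℕ) : ℝ :=
  ∑ n ∈ (Icc 1 ⌊x⌋₊).filter (fun n => n % m = a), ArithmeticFunction.vonMangoldt n

/-- For EVERY set `S` of reduced classes modulo `m` (represented by integers `0 ≤ a < m`):

(a) if `S` is not empty and `#S ≥ φ(m) / log ^ T m`, then there is a prime `p ≤ (1 + ε) (φ(m) / #S) φ(m) log m` with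
`p mod m ∈ S`;

(b) for all real `x` with `m ≤ x ≤ m log ^ T m`, the sum of `Λ(n)` over the `n ≤ x` with `n mod m ∈ S` is equal to
`#S x / φ(m)` with an error of at most `√((1 + ε) #S x log m)`. -/
def Holds (ε : ℝ) (T m : ℕ) : Prop :=
  ∀ S : Finset ℕ, S ⊆ (range m).filter (fun a => Nat.Coprime a m) →
    (1 ≤ S.card → (Nat.totient m : ℝ) / Real.log m ^ T ≤ S.card →
      ∃ p : ℕ, p.Prime ∧ p % m ∈ S ∧ (p : ℝ) * S.card ≤ (1 + ε) * (Nat.totient m : ℝ) ^ 2 * Real.log m) ∧
    ∀ x : ℝ, (m : ℝ) ≤ x → x ≤ m * Real.log m ^ T →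
      (∑ a ∈ S, psiAP x m a - S.card * (x / Nat.totient m)) ^ 2 ≤ (1 + ε) * (S.card * (x * Real.log m))

lemma holds_of (ε : ℝ) (hε : 0 < ε) (hε1 : ε ≤ 1) (T : ℕ) : ∃ Q₀ : ℕ, ∀ Q : ℕ, Q₀ ≤ Q → (∀ x : ℝ, (Q : ℝ) ≤ x →
    x ≤ Q * Real.log Q ^ (T + T + 2) →
    |Pool.Agent.TH894.PV.G x Q - x * Real.log Q| ≤ ε / 4 * (x * Real.log Q)) → Holds ε T Q :=
  Pool.Agent.N469.TL.sets_of_var T T ε hε hε1

/-- all the multiples -/
def HM (j n : ℕ) : Prop := ∀ t : ℕ, 1 ≤ t → (t : ℝ) ≤ Real.log n ^ j → Holds (1 / ((j : ℝ) + 1)) j (t * n)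

theorem holds_mono {ε ε' : ℝ} {K K' m : ℕ} (hε : ε ≤ ε') (hK : K' ≤ K) (hm : 3 ≤ m) (h : Holds ε K m) :
    Holds ε' K' m := by
  have hm3 : (3 : ℝ) ≤ m := by exact_mod_cast hm
  have hl1 : 1 ≤ Real.log m := by
    rw [Real.le_log_iff_exp_le (by linarith)]
    have := Real.exp_one_lt_d9
    linarith
  have hp : Real.log m ^ K' ≤ Real.log m ^ K := pow_le_pow_right₀ hl1 hK
  intro S hS
  obtain ⟨h1, h2⟩ := h S hS
  refine ⟨fun hc hc2 => ?_, fun x hx1 hx2 => ?_⟩
  · obtain ⟨p, p1, p2, p3⟩ := h1 hc (le_trans (div_le_div_of_nonneg_left (Nat.cast_nonneg _) (by positivity) hp) hc2)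
    refine ⟨p, p1, p2, p3.trans ?_⟩
    apply mul_le_mul_of_nonneg_right _ (by linarith)
    apply mul_le_mul_of_nonneg_right _ (by positivity)
    linarith
  · refine (h2 x hx1 (hx2.trans (mul_le_mul_of_nonneg_left hp (by linarith)))).trans ?_
    apply mul_le_mul_of_nonneg_right (by linarith)
    have : 0 ≤ x * Real.log m := mul_nonneg (by linarith) (by linarith)
    positivity

theorem rare_HM : Pool.Agent.N826.IT.Orb.Rare HM := by
  refine ⟨fun i j n hij hn h t ht1 ht2 => ?_, fun j h hne => ?_⟩
  · have hn3 : (3 : ℝ) ≤ n := by exact_mod_cast hn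
    have hl1 : 1 ≤ Real.log n := by
      rw [Real.le_log_iff_exp_le (by linarith)]
      have := Real.exp_one_lt_d9
      linarith
    refine holds_mono ?_ hij ?_ (h t ht1 (ht2.trans (pow_le_pow_right₀ hl1 hij)))
    · apply one_div_le_one_div_of_le (by positivity)
      have : (i : ℝ) ≤ j := by exact_mod_cast hij
      linarith
    · calc 3 ≤ n := hn
        _ = 1 * n := (one_mul n).symm
        _ ≤ t * n := Nat.mul_le_mul_right n ht1
  · have hj0 : (0 : ℝ) < 1 / ((j : ℝ) + 1) := by positivity
    have hj1 : 1 / ((j : ℝ) + 1) ≤ 1 := by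
      rw [div_le_one (by positivity)]
      linarith [(Nat.cast_nonneg j : (0 : ℝ) ≤ j)]
    obtain ⟨Q₀, h0⟩ := holds_of (1 / ((j : ℝ) + 1)) hj0 hj1 j
    have hA := Pool.Agent.N826.IT.Orb.cb_and (h := h)
      (fun A => Pool.Agent.N826.IT.Orb.cbv h hne (1 / ((j : ℝ) + 1) / 4) (by positivity) (j + j + 2) A)
      (fun A => Pool.Agent.N826.IT.Orb.cbN h Q₀ A)
    intro A
    refine Pool.Agent.N826.IT.Orb.cb_mono hA (fun n hn => ?_) A
    rcases hn.1 with h1 | h1
    · exact Or.inl h1
    by_cases hn3 : n < 3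
    · exact Or.inl hn3
    right
    intro t ht1 ht2
    have hn3' : (3 : ℝ) ≤ n := by exact_mod_cast (by omega : 3 ≤ n)
    have hl1 : 1 ≤ Real.log n := by
      rw [Real.le_log_iff_exp_le (by linarith)]
      have := Real.exp_one_lt_d9
      linarith
    apply h0
    · calc Q₀ ≤ n := hn.2
        _ = 1 * n := (one_mul n).symm
        _ ≤ t * n := Nat.mul_le_mul_right n ht1
    · exact h1 t ht1 (ht2.trans (pow_le_pow_right₀ hl1 (by omega)))

/-- **Primes in large sets of classes along the orbits of Euler's function.** (1) Let `f` be a positive multiplicative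
function of at most polynomial growth with `f p = p + c` for all large primes `p`. There is a function `κ` tending to
infinity such that for almost all `m`, with `K = κ m`, ALL integers `n = α f(φ_k m) + h` with `k ≤ K`, `1 ≤ α ≤ K`,
`0 < |h| ≤ K` are positive, and ALL their multiples `q = t n` with `1 ≤ t ≤ (log n)^K` have the property
`Holds (1 / (K + 1)) K q`: every nonempty set `S` of at least `φ(q) / log ^ K q` reduced classes modulo `q` contains the
class of a prime `p ≤ (1 + 1 / (K + 1)) (φ(q) / #S) φ(q) log q` (for example, every coset of every subgroup of index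
`r ≤ log ^ K q` contains the class of a prime `p ≤ (1 + 1 / (K + 1)) r φ(q) log q`), and the sum of `Λ(n)` over the `n ≤ x`
with `n mod q ∈ S` is `#S x / φ(q)` up to `√((1 + 1 / (K + 1)) #S x log q)` for every set `S` of reduced classes and
`q ≤ x ≤ q log ^ K q`. (2) The identity, Euler's function and the sum of the divisors are examples of such `f`. -/
theorem result :
    (∀ (f : ℕ → ℕ) (c : ℤ), Shifted f c → ∃ κ : ℕ → ℕ, Tendsto κ atTop atTop ∧
      AlmostAll (fun m => ∀ k α : ℕ, ∀ h : ℤ, k ≤ κ m → 1 ≤ α → α ≤ κ m → |h| ≤ κ m → h ≠ 0 →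
        0 < (α : ℤ) * f (Nat.totient^[k] m) + h ∧
        ∀ n : ℕ, (n : ℤ) = (α : ℤ) * f (Nat.totient^[k] m) + h → ∀ t : ℕ, 1 ≤ t → (t : ℝ) ≤ Real.log n ^ κ m →
          Holds (1 / ((κ m : ℝ) + 1)) (κ m) (t * n))) ∧
    (Shifted (fun m => m) 0 ∧ Shifted Nat.totient (-1) ∧ Shifted (fun m => ∑ d ∈ m.divisors, d) 1) := by
  refine ⟨fun f c hf => ?_, ⟨Pool.Agent.N826.IT.Orb.shifted_id, Pool.Agent.N826.IT.Orb.shifted_totient,
    Pool.Agent.N826.IT.Orb.shifted_sigma⟩⟩
  obtain ⟨κ, hκ, h⟩ := Pool.Agent.N826.IT.Orb.orbits _ rare_HM hf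
  refine ⟨κ, hκ, Pool.Agent.N826.IT.Orb.almostAll_mono h (fun m hm k α h hk hα1 hα hh hne => ?_)⟩
  obtain ⟨h1, h2⟩ := hm k α h hk hα1 hα hh hne
  refine ⟨by omega, fun n hn t ht1 ht2 => ?_⟩
  rw [← hn, Int.toNat_natCast] at h2
  exact h2 t ht1 ht2

end Pool.Agent.Results.MP_e1dc24_nt.IteratedTotientModuli
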