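import Pool.Agent.N384.MQ.Mod
import Pool.Agent.N384.MQ.Ex
import Pool.Agent.N384.MQ.Quot

/-!
# Least primes in almost all classes, for all moduli near residues with small Fourier coefficients

From Mathlib: `ZMod.stdAddChar`: the additive character `j ↦ exp (2 π i j / M)` of the integers modulo `M`; `ZMod.val`: the
least residue; `z.toNat`: the integer `z` if it is not negative, and `0` otherwise.

Method: a family of residues modulo `M` with small Fourier coefficients has small exponential sums at all real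
frequencies which are not close to integers, its least residues are not concentrated on short intervals, and the large
spectrum of their multiples is thin. The passage from such exponential sums to the variance for almost all moduli is from
the starting files (`Pool.Agent.Y958`, `Pool.Agent.Y885`),
the one from the variance to the least primes is from `Pool.Agent.R501.LP`. Examples: a lemma of
Ajtai, Iwaniec, Komlos, Pintz and Szemeredi on quotients by small primes, the Stepanov type lemma of Heath-Brown and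
Konyagin for subgroups (library `H435R3.HBK`, `N825.FC`), and Weyl sums without losses (library `H373R2.NB`).
-/

set_option autoImplicit false

namespace Pool.Agent.Results.MP_e1dc24_nt.ResidueFamilies

open Finset Filter

/-- The Fourier coefficients of the residues `y i`, `i ∈ s`, modulo `q` at the nonzero frequencies are at most
`η` times the number of the residues: `|∑ i ∈ s, e(h y_i / q)| ≤ η |s|` for all `h ≠ 0` modulo `q`. -/
def Flat {ι : Type} (q : ℕ) [NeZero q] (η : ℝ) (s : Finset ι) (y : ι → ZMod q) : Prop :=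
  ∀ h : ZMod q, h ≠ 0 → ‖∑ i ∈ s, (ZMod.stdAddChar (h * y i) : ℂ)‖ ≤ η * s.card

open Classical in
/-- The number of the `r` with `0 ≤ r < m` and `gcd(r, m) = 1` for which no prime `p ≤ y` is congruent to `r` modulo
`m`; for `m ≥ 2` this is the number of the reduced classes with `p(r, m) > y`. -/
noncomputable def late (m : ℕ) (y : ℝ) : ℕ :=
  ((range m).filter (fun r => Nat.Coprime r m ∧ ∀ p : ℕ, p.Prime → (p : ℝ) ≤ y → ¬ p % m = r)).card

/-- `ψ(y; m, r) = ∑_{n ≤ y, n ≡ r mod m} Λ(n)` for `0 ≤ r < m`. -/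
noncomputable def psiAP (y : ℝ) (m r : ℕ) : ℝ :=
  ∑ n ∈ (Icc 1 ⌊y⌋₊).filter (fun n => n % m = r), ArithmeticFunction.vonMangoldt n

open Classical in
/-- The number of the `r` with `0 ≤ r < m` and `gcd(r, m) = 1` with `|ψ(y; m, r) - y / φ(m)| ≥ η y / φ(m)`. -/
noncomputable def off (m : ℕ) (y η : ℝ) : ℕ :=
  ((range m).filter (fun r => Nat.Coprime r m ∧ η * (y / (Nat.totient m : ℝ)) ≤
    |psiAP y m r - y / (Nat.totient m : ℝ)|)).card

/-- For all real `y = lam φ(m) log m` with `m ≤ y ≤ m (log m) ^ A`: the least prime `p(r, m)` is larger than `y` for at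
most `(1 + ε) φ(m) / (1 + lam)` of the reduced classes `r`, and for all `η > 0` at most `(1 + ε) φ(m) / (η² lam)` of the
reduced classes `r` have `|ψ(y; m, r) - y / φ(m)| ≥ η y / φ(m)`. -/
def Good (ε : ℝ) (A m : ℕ) : Prop :=
  ∀ y : ℝ, (m : ℝ) ≤ y → y ≤ m * Real.log m ^ A →
    (late m y : ℝ) * (1 + y / (Nat.totient m * Real.log m)) ≤ (1 + ε) * Nat.totient m ∧
    ∀ η : ℝ, 0 < η → (off m y η : ℝ) * (η ^ 2 * (y / (Nat.totient m * Real.log m))) ≤ (1 + ε) * Nat.totient m

open Classical in
/-- **(1)** Let `κ ≠ 0`, `A`, `U`, `W`, `a` and `0 < ε ≤ 1` be fixed. There is a number `V` such that the following holds for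
all large integers `M`. Let `y i`, `i ∈ s`, be a finite family of residues modulo `M` whose Fourier coefficients at the
nonzero frequencies are at most `|s| / log ^ V M`, and let `|c| ≤ M log ^ a M`. Then all the `i ∈ s`, with at most
`|s| / log ^ U M` exceptions, have the following property: for all moduli `m ≥ 1` with
`|m - (c + κ y_i)| ≤ log ^ W M` (with the least residue `0 ≤ y_i < M`), and for all real
`y = lam φ(m) log m` with `m ≤ y ≤ m (log m) ^ A`, one has `p(r, m) ≤ y` for all reduced classes `r` modulo `m` with at most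
`(1 + ε) φ(m) / (1 + lam)` exceptions (in particular `p(r, m) ≤ m (log m) ^ A` with fewer than
`(1 + ε) φ(m) / (log m) ^ (A - 1)` exceptions), and for all `η > 0` one has `|ψ(y; m, r) - y / φ(m)| < η y / φ(m)` with at most
`(1 + ε) φ(m) / (η² lam)` exceptions.

**(2)**, **(3)** Examples. The condition of (1) holds modulo all large primes `p` for:
* the quotients `j / r` of the integers `0 ≤ j < S` by the primes `r ≤ R`, if `log ^ (V + 4) p ≤ R < p` and `R ^ 2 ≤ S`; thus
  there are such explicit sets with only `log ^ (3 V + 12) p` members, in the short intervals around almost all members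
  of which (and around almost all members of all their translates) all the moduli have this property;
* the cosets of all subgroups of the multiplicative group of an order of at least `p ^ (3/8) log ^ (3 V + 1) p`;
* the residues `a b + g(a) + k(b)`, `a ∈ A`, `b ∈ B`, for arbitrary sets with `|A| |B| ≥ p log ^ (2 V) p` and arbitrary
  functions `g` and `k`;
* the values `f(n)`, `0 ≤ n < x`, of all integer polynomials of degree `d` whose leading coefficient is not divisible by
  `p`, if `x ^ d ≥ p log ^ C p`, where `C` depends on `d` and `V`. -/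
theorem result :
    (∀ (κ : ℤ), κ ≠ 0 → ∀ (A U W a : ℕ) (ε : ℝ), 0 < ε → ε ≤ 1 → ∃ V M₀ : ℕ, ∀ M : ℕ, M₀ ≤ M → ∀ [NeZero M]
      (ι : Type) (s : Finset ι) (y : ι → ZMod M), Flat M (1 / Real.log M ^ V) s y →
      ∀ c : ℤ, |(c : ℝ)| ≤ M * Real.log M ^ a →
        ((s.filter fun i => ¬ ∀ m : ℤ, |(m : ℝ) - (c + κ * ((y i).val : ℕ))| ≤ Real.log M ^ W →
          0 < m → Good ε A m.toNat).card : ℝ) ≤ s.card / Real.log M ^ U) ∧
    (∀ V : ℕ, ∃ P₀ : ℕ, ∀ p : ℕ, P₀ ≤ p → ∀ [Fact p.Prime],
      (∀ R S : ℕ, Real.log p ^ (V + 4) ≤ R → R < p → R ^ 2 ≤ S →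
        Flat p (1 / Real.log p ^ V) (((Icc 1 R).filter Nat.Prime) ×ˢ range S)
          (fun z => ((z.2 : ℕ) : ZMod p) * ((z.1 : ℕ) : ZMod p)⁻¹)) ∧
      (∀ (H : Subgroup (ZMod p)ˣ) (s : Finset (ZMod p)ˣ), (∀ u, u ∈ s ↔ u ∈ H) →
        (p : ℝ) ^ (3 / 8 : ℝ) * Real.log p ^ (3 * V + 1) ≤ s.card → ∀ x : ZMod p, x ≠ 0 →
        Flat p (1 / Real.log p ^ V) s (fun u => x * (u : ZMod p))) ∧
      (∀ (A B : Finset (ZMod p)) (g k : ZMod p → ZMod p), (p : ℝ) * Real.log p ^ (2 * V) ≤ A.card * B.card →
        Flat p (1 / Real.log p ^ V) (A ×ˢ B) (fun z => z.1 * z.2 + g z.1 + k z.2))) ∧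
    (∀ d V : ℕ, 1 ≤ d → ∃ C P₀ : ℕ, ∀ p : ℕ, P₀ ≤ p → ∀ [Fact p.Prime] (f : Polynomial ℤ), f.natDegree = d →
      ¬ (p : ℤ) ∣ f.leadingCoeff → ∀ x : ℕ, (p : ℝ) * Real.log p ^ C ≤ (x : ℝ) ^ d →
      Flat p (1 / Real.log p ^ V) (range x) (fun n => ((f.eval (n : ℤ) : ℤ) : ZMod p))) := by
  refine ⟨fun κ hκ A U W a ε hε hε1 => ?_, fun V => ?_, fun d V hd => ?_⟩
  · obtain ⟨V, M₀, h0⟩ := Pool.Agent.N384.MQ.mq_lpM κ hκ A U W a ε hε hε1
    exact ⟨V, M₀, fun M hM _ ι s y hf c hc => h0 M hM ι s y hf c hc⟩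
  · obtain ⟨P₁, h1⟩ := Pool.Agent.N384.MQ.flat_quot V
    obtain ⟨P₂, h2⟩ := Pool.Agent.N384.MQ.flat_coset V
    obtain ⟨P₃, h3⟩ := Pool.Agent.N384.MQ.flat_prod V
    exact ⟨P₁ + P₂ + P₃, fun p hp _ => ⟨fun R S => h1 p (by omega) R S, fun H s => h2 p (by omega) H s,
      fun A B g k => h3 p (by omega) A B g k⟩⟩
  · exact Pool.Agent.N384.MQ.flat_poly d V hd

end Pool.Agent.Results.MP_e1dc24_nt.ResidueFamilies
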